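import Pool.Agent.H.MP_5decda_an.C

namespace Pool.Agent.Results.MP_5decda_an.Yes
open Pool.Agent.H.MP_5decda_an
open scoped TensorProduct

theorem result (𝕜 : Type*) [RCLike 𝕜] (X Y W : Type*)
    [NormedAddCommGroup X] [NormedSpace 𝕜 X] [CompleteSpace X]
    [NormedAddCommGroup Y] [NormedSpace 𝕜 Y] [CompleteSpace Y] [Nontrivial Y]
    [NormedAddCommGroup W] [NormedSpace 𝕜 W] [CompleteSpace W]
    (j : X ⊗[𝕜] Y →ₗ[𝕜] W) (hd : DenseRange j) (hj : ∀ z, ‖j z‖ = projNorm z)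
    (hL : LEmbedded 𝕜 X) (hD : Daugavet 𝕜 X)
    (hm : DualMAP 𝕜 (StrongDual 𝕜 X) ∨ MAP 𝕜 Y) : Daugavet 𝕜 W :=
  dp_iff.2 (main (dp_iff.1 hD) hL hm j hd hj)

end Pool.Agent.Results.MP_5decda_an.Yes
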